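import Mathlib
import Pool.Agent.H577R3.RM.Stmts

set_option autoImplicit false

/-! Block lemma for the random metabelian groups. -/

namespace Pool.Agent.H385R3.RM

open Pool.Agent.H577R3.RM Filter Topology

/-- flip the signs of the letters `a_l` with `ε l = true` -/
def flp {n b : ℕ} (ε : Fin n → Bool) (c : Fin b → Lt n) : Fin b → Lt n :=
  fun i => ((c i).1, xor (ε (c i).1) (c i).2)

lemma flp_flp {n b : ℕ} (ε : Fin n → Bool) (c : Fin b → Lt n) : flp ε (flp ε c) = c := by
  funext i
  simp only [flp]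
  apply Prod.ext
  · rfl
  · simp

lemma flp_red {n b : ℕ} (ε : Fin n → Bool) (c : Fin b → Lt n) (h : IsRed c) :
    IsRed (flp ε c) := by
  intro i j hij h1
  simp only [flp] at h1 ⊢
  rw [h i j hij h1, h1]

lemma vec_flp {n : ℕ} (ε : Fin n → Bool) (a : Lt n) (l : Fin n) :
    vec ((a.1, xor (ε a.1) a.2) : Lt n) l = (if ε l then -1 else 1) * vec a l := by
  rcases a with ⟨k, s⟩
  by_cases hk : l = k
  · subst hk
    cases s <;> cases h : ε l <;> simp [vec, h]
  · cases s <;> cases h : ε k <;> simp [vec, Pi.single_eq_of_ne hk, h]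

lemma pos_flp {n b : ℕ} (ε : Fin n → Bool) (c : Fin b → Lt n) (j : ℕ) (l : Fin n) :
    pos (flp ε c) j l = (if ε l then -1 else 1) * pos c j l := by
  simp only [pos, Finset.sum_apply, Finset.mul_sum]
  refine Finset.sum_congr rfl fun i _ => ?_
  by_cases h : i.1 < j
  · simp only [h, if_true]
    exact vec_flp ε (c i) l
  · simp [h]

open Classical in
/-- the good blocks -/
noncomputable def GG (n b W : ℕ) (i : Fin n) (η : Fin n → ℤ) : Finset (Fin b → Lt n) :=
  Finset.univ.filter fun c => IsRed c ∧ (∀ l, 0 ≤ η l * pos c b l) ∧ (W : ℤ) ≤ η i * pos c b i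

lemma mem_GG {n b W : ℕ} {i : Fin n} {η : Fin n → ℤ} {c : Fin b → Lt n} :
    c ∈ GG n b W i η ↔ IsRed c ∧ (∀ l, 0 ≤ η l * pos c b l) ∧ (W : ℤ) ≤ η i * pos c b i := by
  simp [GG]

/-- words with a large coordinate are covered by the sign flips of the good blocks -/
lemma card_big (n b W : ℕ) (i : Fin n) (η : Fin n → ℤ) (hη : ∀ l, η l = 1 ∨ η l = -1) :
    Nat.card {c : RW n b // (W : ℤ) ≤ |pos c.1 b i|} ≤ 2 ^ n * (GG n b W i η).card := by
  classical
  let e : {c : RW n b // (W : ℤ) ≤ |pos c.1 b i|} → Fin n → Bool :=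
    fun c l => decide (η l * pos c.1.1 b l < 0)
  have hsgn : ∀ c l, η l * ((if e c l then -1 else 1) * pos c.1.1 b l) = |pos c.1.1 b l| := by
    intro c l
    by_cases h : η l * pos c.1.1 b l < 0
    · have h2 : e c l = true := by simp [e, h]
      rw [h2]
      rcases hη l with h3 | h3
      · rw [h3, one_mul] at h
        rw [h3, abs_of_neg h]; simp
      · rw [h3] at h
        have : 0 < pos c.1.1 b l := by linarith
        rw [h3, abs_of_pos this]; simp
    · have h2 : e c l = false := by simp [e, h]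
      rw [h2]
      rw [not_lt] at h
      rcases hη l with h3 | h3
      · rw [h3, one_mul] at h
        rw [h3, abs_of_nonneg h]; simp
      · rw [h3] at h
        have : pos c.1.1 b l ≤ 0 := by linarith
        rw [h3, abs_of_nonpos this]; simp
  let f : {c : RW n b // (W : ℤ) ≤ |pos c.1 b i|} → (Fin n → Bool) × {c // c ∈ GG n b W i η} :=
    fun c => (e c, ⟨flp (e c) c.1.1, by
      rw [mem_GG]
      refine ⟨flp_red _ _ c.1.2, ?_, ?_⟩
      · intro l
        rw [pos_flp, hsgn]; exact abs_nonneg _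
      · rw [pos_flp, hsgn]; exact c.2⟩)
  have hf : Function.Injective f := by
    intro c c' h
    simp only [f, Prod.mk.injEq, Subtype.mk.injEq] at h
    obtain ⟨h1, h2⟩ := h
    apply Subtype.ext
    apply Subtype.ext
    rw [← flp_flp (e c) c.1.1, h2, h1, flp_flp]
  have := Nat.card_le_card_of_injective f hf
  rw [Nat.card_prod] at this
  simpa using this

theorem taskBL (h1 : TaskWL) (h2 : TaskAC1) : TaskBL := by
  classical
  intro n hn
  obtain ⟨C0, hC0⟩ := h2 n hn
  refine ⟨n * 2 ^ n + 8 * C0, 4 * 2 ^ (n + 1), ?_, ?_⟩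
  · have : 0 < 2 ^ (n + 1) := by positivity
    omega
  intro W b B g ℓ hW hb hB
  have hn2 : 1 ≤ n * 2 ^ n := Nat.mul_pos (by omega) (by positivity)
  have hb1 : 1 ≤ b := by
    have : 1 ≤ (n * 2 ^ n + 8 * C0) * W ^ 3 := Nat.mul_pos (by omega) (by positivity)
    omega
  -- the size of the set of good blocks
  have hcard : ∀ (i : Fin n) (η : Fin n → ℤ), (∀ l, η l = 1 ∨ η l = -1) →
      Nat.card (RW n b) ≤ 2 ^ (n + 1) * (GG n b W i η).card := by
    intro i η hη
    have hac := hC0 (2 * W) b W i (Pi.single i 1) (by omega) (by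
      calc C0 * (2 * W) ^ 3 = (8 * C0) * W ^ 3 := by ring
        _ ≤ (n * 2 ^ n + 8 * C0) * W ^ 3 := Nat.mul_le_mul_right _ (by omega)
        _ ≤ b := hb) (by simp)
    have hsimp : ∀ w : RW n b, (|∑ l, (Pi.single i 1 : Fin n → ℤ) l * pos w.1 b l| <
        (W : ℤ) * |(Pi.single i 1 : Fin n → ℤ) i|) ↔ |pos w.1 b i| < (W : ℤ) := by
      intro w
      have : ∑ l, (Pi.single i 1 : Fin n → ℤ) l * pos w.1 b l = pos w.1 b i := by
        rw [Finset.sum_eq_single i]
        · simp
        · intro l _ hl; simp [Pi.single_eq_of_ne hl]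
        · intro h; exact absurd (Finset.mem_univ i) h
      rw [this]; simp
    have hc1 : Nat.card {w : RW n b // |∑ l, (Pi.single i 1 : Fin n → ℤ) l * pos w.1 b l| <
        (W : ℤ) * |(Pi.single i 1 : Fin n → ℤ) i|} =
        Nat.card {w : RW n b // |pos w.1 b i| < (W : ℤ)} :=
      Nat.card_congr (Equiv.subtypeEquivRight hsimp)
    rw [hc1] at hac
    have hac2 : 2 * Nat.card {w : RW n b // |pos w.1 b i| < (W : ℤ)} ≤ Nat.card (RW n b) := by
      have : W * (2 * Nat.card {w : RW n b // |pos w.1 b i| < (W : ℤ)}) ≤ W * Nat.card (RW n b) := by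
        calc _ = 2 * W * Nat.card {w : RW n b // |pos w.1 b i| < (W : ℤ)} := by ring
          _ ≤ _ := hac
      exact Nat.le_of_mul_le_mul_left this (by omega)
    have hsplit : Nat.card (RW n b) = Nat.card {w : RW n b // |pos w.1 b i| < (W : ℤ)} +
        Nat.card {w : RW n b // (W : ℤ) ≤ |pos w.1 b i|} := by
      have e := Equiv.sumCompl (fun w : RW n b => |pos w.1 b i| < (W : ℤ))
      rw [← Nat.card_congr e, Nat.card_sum]
      congr 1
      exact Nat.card_congr (Equiv.subtypeEquivRight fun w => not_lt)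
    have hbig := card_big n b W i η hη
    have : 2 ^ (n + 1) * (GG n b W i η).card = 2 * (2 ^ n * (GG n b W i η).card) := by ring
    omega
  -- the exceptional sets
  let sg : (Fin n → Bool) → Fin n → ℤ := fun ε l => if ε l then 1 else -1
  have hsg : ∀ ε l, sg ε l = 1 ∨ sg ε l = -1 := by
    intro ε l; simp only [sg]; split_ifs <;> simp
  have hwl : ∀ x : Fin n × (Fin n → Bool),
      Nat.card {w : RW n ℓ // ∀ t ∈ Finset.range B, ∀ c ∈ GG n b W x.1 (sg x.2),
        ¬ At w.1 (t * (b + 2) + 1) c} * (4 * 2 ^ (n + 1)) ^ B ≤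
        (4 * 2 ^ (n + 1) - 1) ^ B * Nat.card (RW n ℓ) := by
    intro x
    have := h1 n b ℓ (2 ^ (n + 1)) (GG n b W x.1 (sg x.2)) (Finset.range B) hn hb1
      (fun c hc => (mem_GG.1 hc).1) (hcard x.1 (sg x.2) (hsg x.2)) (by
        intro t ht
        rw [Finset.mem_range] at ht
        have : (t + 1) * (b + 2) ≤ B * (b + 2) := Nat.mul_le_mul_right _ (by omega)
        omega)
    rwa [Finset.card_range] at this
  -- the cover
  have hcover : ∀ w : {w : RW n ℓ // ¬ C1 b W g w.1}, ∃ x : Fin n × (Fin n → Bool),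
      ∀ t ∈ Finset.range B, ∀ c ∈ GG n b W x.1 (sg x.2), ¬ At w.1.1 (t * (b + 2) + 1) c := by
    rintro ⟨w, hw⟩
    by_contra hcon
    push Not at hcon
    apply hw
    intro i η hη
    let ε : Fin n → Bool := fun l => decide (η l = 1)
    have hε : sg ε = η := by
      funext l
      simp only [sg, ε]
      rcases hη l with h | h
      · simp [h]
      · simp [h]
    obtain ⟨t, ht, c, hc, hat⟩ := hcon (i, ε)
    rw [Finset.mem_range] at ht
    simp only at hc
    rw [hε, mem_GG] at hc
    have hle : (t + 1) * (b + 2) ≤ B * (b + 2) := Nat.mul_le_mul_right _ (by omega)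
    have hle2 : (t + 1) * (b + 2) = t * (b + 2) + (b + 2) := by ring
    set s := t * (b + 2) + 1 with hs
    have hsb : s + b + g ≤ ℓ := by omega
    have hpos : ∀ l, pos w.1 (s + b) l - pos w.1 s l = pos c b l := by
      intro l
      have e1 : pos w.1 (s + b) l - pos w.1 s l =
          ∑ i : Fin ℓ, if s ≤ i.1 ∧ i.1 < s + b then vec (w.1 i) l else 0 := by
        simp only [pos, Finset.sum_apply]
        rw [← Finset.sum_sub_distrib]
        refine Finset.sum_congr rfl fun i _ => ?_
        by_cases h1 : i.1 < s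
        · have h2 : i.1 < s + b := by omega
          simp [h1, h2, not_le.2 h1]
        · by_cases h2 : i.1 < s + b
          · simp [h1, h2, not_lt.1 h1]
          · simp [h1, h2]
      have e2 : pos c b l = ∑ i : Fin b, vec (c i) l := by
        simp only [pos, Finset.sum_apply]
        refine Finset.sum_congr rfl fun i _ => ?_
        simp [i.2]
      rw [e1, e2, ← Finset.sum_filter]
      symm
      refine Finset.sum_bij (fun (i : Fin b) _ => (⟨s + i.1, by omega⟩ : Fin ℓ)) ?_ ?_ ?_ ?_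
      · intro i _
        simp only [Finset.mem_filter, Finset.mem_univ, true_and]
        omega
      · intro i _ j _ hij
        simp only [Fin.mk.injEq] at hij
        exact Fin.ext (by omega)
      · intro j hj
        simp only [Finset.mem_filter, Finset.mem_univ, true_and] at hj
        refine ⟨⟨j.1 - s, by omega⟩, Finset.mem_univ _, ?_⟩
        apply Fin.ext
        simp only
        omega
      · intro i _
        obtain ⟨h, h'⟩ := hat i
        rw [← h']
    refine ⟨s, hsb, ?_, ?_⟩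
    · intro l
      rw [hpos]; exact hc.2.1 l
    · rw [hpos]; exact hc.2.2
  choose x hx using hcover
  have hle : Nat.card {w : RW n ℓ // ¬ C1 b W g w.1} ≤
      ∑ x : Fin n × (Fin n → Bool), Nat.card {w : RW n ℓ // ∀ t ∈ Finset.range B,
        ∀ c ∈ GG n b W x.1 (sg x.2), ¬ At w.1 (t * (b + 2) + 1) c} := by
    rw [← Nat.card_sigma]
    refine Nat.card_le_card_of_injective (fun w => ⟨x w, ⟨w.1, hx w⟩⟩) ?_
    intro w w' h
    have h' := congrArg (fun y : (Σ x : Fin n × (Fin n → Bool), {w : RW n ℓ // ∀ t ∈ Finset.range B,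
        ∀ c ∈ GG n b W x.1 (sg x.2), ¬ At w.1 (t * (b + 2) + 1) c}) => y.2.1) h
    exact Subtype.ext h'
  calc Nat.card {w : RW n ℓ // ¬ C1 b W g w.1} * (4 * 2 ^ (n + 1)) ^ B
      ≤ (∑ x : Fin n × (Fin n → Bool), Nat.card {w : RW n ℓ // ∀ t ∈ Finset.range B,
        ∀ c ∈ GG n b W x.1 (sg x.2), ¬ At w.1 (t * (b + 2) + 1) c}) * (4 * 2 ^ (n + 1)) ^ B :=
        Nat.mul_le_mul_right _ hle
    _ = ∑ x : Fin n × (Fin n → Bool), Nat.card {w : RW n ℓ // ∀ t ∈ Finset.range B,
        ∀ c ∈ GG n b W x.1 (sg x.2), ¬ At w.1 (t * (b + 2) + 1) c} * (4 * 2 ^ (n + 1)) ^ B :=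
        Finset.sum_mul _ _ _
    _ ≤ ∑ x : Fin n × (Fin n → Bool), (4 * 2 ^ (n + 1) - 1) ^ B * Nat.card (RW n ℓ) :=
        Finset.sum_le_sum fun x _ => hwl x
    _ = (n * 2 ^ n) * ((4 * 2 ^ (n + 1) - 1) ^ B * Nat.card (RW n ℓ)) := by
        rw [Finset.sum_const, Finset.card_univ]
        simp
    _ ≤ (n * 2 ^ n + 8 * C0) * ((4 * 2 ^ (n + 1) - 1) ^ B * Nat.card (RW n ℓ)) :=
        Nat.mul_le_mul_right _ (by omega)
    _ = _ := by ring

end Pool.Agent.H385R3.RM
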